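import Pool.Agent.helper65.GD.SpecF

/-! Row `gf:XZ1` (MP_ea335c_an). -/

set_option autoImplicit false

namespace Pool.Agent.GD

open Finset Metric Filter Topology

theorem XZ1_mom {N : ℕ} {w : Fin N → ℝ} {x : Fin N → ℂ} (h : Atomic N w x) (m : ℕ) :
    ‖mom w x m‖ ≤ 1 := by
  obtain ⟨h0, h1, hx⟩ := h
  rw [mom]
  refine (norm_sum_le _ _).trans ?_
  rw [← h1]
  refine Finset.sum_le_sum fun l _ => ?_
  rw [norm_mul, norm_pow, hx l, one_pow, mul_one, Complex.norm_real, Real.norm_eq_abs,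
    abs_of_nonneg (h0 l)]

theorem XZ1 (h1 : XLB_stmt) (h2 : XGR_stmt) (_h3 : XCB_stmt) : XZ1_stmt := by
  intro N w x A hA
  set β := mom w x with hβ
  have hr := ex_rec 2 β
  have hg := h2 β (XZ1_mom hA)
  have e1 := hr.2 (A + 1)
  have e2 := hr.2 A
  have key : ((A : ℂ) + 1) * (ex 2 β (A + 1) - 2 * β 1 * ex 2 β A) =
      2 * ∑ m ∈ range A, (β (A - m + 1) - 2 * β 1 * β (A - m)) * ex 2 β m := by
    rw [Finset.sum_range_succ, Nat.add_sub_cancel_left] at e1
    have e3 : ∑ m ∈ range A, (β (A - m + 1) - 2 * β 1 * β (A - m)) * ex 2 β m =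
        ∑ m ∈ range A, β (A + 1 - m) * ex 2 β m -
          2 * β 1 * ∑ m ∈ range A, β (A - m) * ex 2 β m := by
      rw [Finset.mul_sum, ← Finset.sum_sub_distrib]
      refine Finset.sum_congr rfl fun m hm => ?_
      have := mem_range.1 hm
      rw [show A + 1 - m = A - m + 1 by omega]
      ring
    rw [e3]
    push_cast at e1
    linear_combination e1 - 2 * β 1 * e2
  have hn : ‖((A : ℂ) + 1)‖ = (A : ℝ) + 1 := by
    have : ((A : ℂ) + 1) = (((A : ℝ) + 1 : ℝ) : ℂ) := by push_cast; ring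
    rw [this, Complex.norm_real, Real.norm_eq_abs, abs_of_nonneg (by positivity)]
  have hs : ∀ n : ℕ, ∑ m ∈ range n, ((m : ℝ) + 1) = (n : ℝ) * (n + 1) / 2 := by
    intro n
    induction n with
    | zero => simp
    | succ n ih => rw [Finset.sum_range_succ, ih]; push_cast; ring
  have hb : ((A : ℝ) + 1) * ‖ex 2 β (A + 1) - 2 * β 1 * ex 2 β A‖ ≤ ((A : ℝ) + 1) * A := by
    calc ((A : ℝ) + 1) * ‖ex 2 β (A + 1) - 2 * β 1 * ex 2 β A‖
        = ‖((A : ℂ) + 1) * (ex 2 β (A + 1) - 2 * β 1 * ex 2 β A)‖ := by rw [norm_mul, hn]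
      _ = 2 * ‖∑ m ∈ range A, (β (A - m + 1) - 2 * β 1 * β (A - m)) * ex 2 β m‖ := by
          rw [key, norm_mul, Complex.norm_two]
      _ ≤ 2 * ∑ m ∈ range A, ((m : ℝ) + 1) := by
          refine mul_le_mul_of_nonneg_left ((norm_sum_le _ _).trans ?_) (by norm_num)
          refine Finset.sum_le_sum fun m _ => ?_
          rw [norm_mul]
          calc ‖β (A - m + 1) - 2 * β 1 * β (A - m)‖ * ‖ex 2 β m‖ ≤ 1 * ((m : ℝ) + 1) :=
                mul_le_mul (h1 N w x (A - m) hA) (hg m) (norm_nonneg _) zero_le_one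
            _ = (m : ℝ) + 1 := one_mul _
      _ = ((A : ℝ) + 1) * A := by rw [hs]; ring
  exact le_of_mul_le_mul_left hb (by positivity)

end Pool.Agent.GD
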